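import Pool.Agent.PostBSigma.Main

/-!
# There is no uniform pair of Turing incomparable c.e. sets over `PA⁻ + BΣ₁`

For all `Σ₁` formulas `φ`, `ψ` (with one free variable and no parameters) there is a model `M` of
`PA⁻ + IΔ₀ + exp + BΣ₁` in which `W_φ ≤_T W_ψ` or `W_ψ ≤_T W_φ`.
-/

namespace Pool.Agent.Results.MP_0f3b43_lc.NoUniformPair

open Pool.Agent.PostBSigma

theorem result (φ ψ : S1) :
    ∃ (M : Type) (_ : CommSemiring M) (_ : LinearOrder M),
      ModelBS1 M ∧ (TuringLE (W M φ) (W M ψ) ∨ TuringLE (W M ψ) (W M φ)) := by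
  by_cases h : TuringLE (W ℕ ψ) (W ℕ φ)
  · exact ⟨ℕ, inferInstance, inferInstance, modelBS1_nat, Or.inr h⟩
  · obtain ⟨M, i1, i2, hM, hB⟩ := core φ ψ (fun _ => 0) (fun _ => 0) h
    refine ⟨M, i1, i2, hM, Or.inl ?_⟩
    have := hB (W M ψ)
    simp only [Nat.cast_zero] at this
    exact this

end Pool.Agent.Results.MP_0f3b43_lc.NoUniformPair
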