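import Pool.Agent.PostBSigma.Main

/-!
# There is no uniform solution to Post's problem over `PA⁻ + BΣ₁`

For every `Σ₁` formula `φ` (with one free variable and no parameters) there is a model `M` of
`PA⁻ + IΔ₀ + exp + BΣ₁` in which the set `W_φ` defined by `φ` is either computable
(`W_φ ≤_T ∅`) or a complete c.e. set (`W_φ ≡_T ∅'`).
-/

namespace Pool.Agent.Results.MP_0f3b43_lc.NoUniformPost

open Pool.Agent.PostBSigma

theorem result (φ : S1) :
    ∃ (M : Type) (_ : CommSemiring M) (_ : LinearOrder M),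
      ModelBS1 M ∧ (TuringLE (W M φ) (∅ : Set M) ∨ CompleteCE (W M φ)) := by
  by_cases h : ∀ C : Set ℕ, CE C → TuringLE C (W ℕ φ)
  · exact ⟨ℕ, inferInstance, inferInstance, modelBS1_nat,
      Or.inr ⟨⟨φ, fun _ => 0, fun _ => Iff.rfl⟩, h⟩⟩
  · push Not at h
    obtain ⟨C, ⟨ψ, p, hC⟩, hn⟩ := h
    have e : C = {x : ℕ | ψ.eval (cons x p)} := Set.ext hC
    rw [e] at hn
    obtain ⟨M, i1, i2, hM, hB⟩ := core φ ψ (fun _ => 0) p hn
    refine ⟨M, i1, i2, hM, Or.inl ?_⟩
    have := hB ∅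
    simp only [Nat.cast_zero] at this
    exact this

end Pool.Agent.Results.MP_0f3b43_lc.NoUniformPost
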